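import Pool.Agent.Helper503.Dg.Nehari

set_option autoImplicit false

open MeasureTheory Filter Topology Complex Metric Set AddCircle
open scoped Interval ComplexConjugate ENNReal

namespace Pool.Agent.Helper503.Dg

lemma pt_eq (t : T) : pt t = e 1 t := rfl

lemma ext_eq_of_mem {f : T → ℂ} {G : ℂ → ℂ} (h : ∀ z ∈ disc, ext f z = G z) {g : T → ℂ}
    (hf : f ∈ HInf) (hg : HasBdry G g) : f =ᵐ[mu] g := by
  filter_upwards [radial hf, hg] with t h1 h2
  refine tendsto_nhds_unique (h1.congr' ?_) h2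
  filter_upwards [Ioo_mem_left] with r hr
  exact h _ (re1_mem hr.1.le hr.2 t)

lemma hasBdry_ext {f : T → ℂ} (hf : f ∈ HInf) {G : ℂ → ℂ} (h : ∀ z ∈ disc, ext f z = G z) :
    HasBdry G f := by
  filter_upwards [radial hf] with t h1
  refine h1.congr' ?_
  filter_upwards [Ioo_mem_left] with r hr
  exact h _ (re1_mem hr.1.le hr.2 t)

lemma bh_rep {G : ℂ → ℂ} (h : BddHol G) :
    ∃ g ∈ HInf, (∀ z ∈ disc, ext g z = G z) ∧ HasBdry G g := by
  obtain ⟨M, hM⟩ := h.2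
  obtain ⟨f, hf, hb, hfe⟩ := P641.exists_boundary h.1 (M := M) (fun z hz => hM z (by simpa using hz))
  have h2 : ∀ z ∈ disc, ext f z = G z := fun z hz => hfe z (by simpa using hz)
  exact ⟨f, hf, h2, hasBdry_ext hf h2⟩

lemma bddHol_ext {f : T → ℂ} (hf : f ∈ HInf) : BddHol (ext f) := by
  refine ⟨ext_diff hf.1, ?_⟩
  obtain ⟨C, hC0, hC⟩ := exists_bound hf.1
  exact ⟨C, fun z hz => ext_bound hf hC (by simpa using hz)⟩

/-- data attached to an inner function -/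
structure Rep (u : ℂ → ℂ) (g : T → ℂ) : Prop where
  mem : g ∈ HInf
  one : ∀ᵐ t ∂mu, ‖g t‖ = 1
  ext : ∀ z ∈ disc, ext g z = u z
  bdry : HasBdry u g
  inv : HasBdry (fun z => (u z)⁻¹) (fun t => conj (g t))

lemma Rep.of {u : ℂ → ℂ} {g : T → ℂ} (h1 : g ∈ HInf) (h2 : ∀ᵐ t ∂mu, ‖g t‖ = 1)
    (h3 : ∀ z ∈ disc, Dg.ext g z = u z) : Rep u g := by
  have h4 := hasBdry_ext h1 h3
  refine ⟨h1, h2, h3, h4, ?_⟩
  filter_upwards [h2, h4] with t t1 t2
  have hne : g t ≠ 0 := by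
    intro h0; rw [h0, norm_zero] at t1; norm_num at t1
  have e1 : conj (g t) = (g t)⁻¹ := by
    rw [Complex.inv_def, Complex.normSq_eq_norm_sq, t1]; simp
  rw [e1]
  exact t2.inv₀ hne

lemma inner_rep {u : ℂ → ℂ} (h : IsInner u) : ∃ g, Rep u g := by
  obtain ⟨g, hg, hge, hgb⟩ := bh_rep h.1
  refine ⟨g, Rep.of hg ?_ hge⟩
  filter_upwards [hgb, h.2] with t t1 t2
  obtain ⟨w, hw, hwt⟩ := t2
  rw [tendsto_nhds_unique t1 hwt, hw]

lemma Rep.isInner {u : ℂ → ℂ} {g : T → ℂ} (h : Rep u g) : IsInner u := by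
  refine ⟨⟨?_, ?_⟩, ?_⟩
  · exact (ext_diff h.mem.1).congr fun z hz => (h.ext z hz).symm
  · refine ⟨1, fun z hz => ?_⟩
    rw [← h.ext z hz]
    exact ext_bound h.mem (h.one.mono fun t ht => ht.le) (by simpa using hz)
  · filter_upwards [h.one, h.bdry] with t t1 t2
    exact ⟨g t, t1, t2⟩

lemma Rep.le_one {u : ℂ → ℂ} {g : T → ℂ} (h : Rep u g) {z : ℂ} (hz : z ∈ disc) : ‖u z‖ ≤ 1 := by
  rw [← h.ext z hz]
  exact ext_bound h.mem (h.one.mono fun t ht => ht.le) (by simpa using hz)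

/-- membership of a function (rather than a class) -/
def Mem (D : Submodule ℂ (T →ₘ[mu] ℂ)) (f : T → ℂ) : Prop := ∃ g ∈ D, g =ᵐ[mu] f

section

variable {D : Submodule ℂ (T →ₘ[mu] ℂ)}

lemma Mem.aesm {f : T → ℂ} (h : Mem D f) : AEStronglyMeasurable f mu := by
  obtain ⟨g, _, hg⟩ := h
  exact (g.aestronglyMeasurable).congr hg

lemma Mem.congr {f g : T → ℂ} (h : Mem D f) (hfg : f =ᵐ[mu] g) : Mem D g := by
  obtain ⟨k, hk, hkf⟩ := h
  exact ⟨k, hk, hkf.trans hfg⟩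

lemma Mem.add {f g : T → ℂ} (h : Mem D f) (h' : Mem D g) : Mem D (fun t => f t + g t) := by
  obtain ⟨k, hk, hkf⟩ := h
  obtain ⟨l, hl, hlg⟩ := h'
  refine ⟨k + l, D.add_mem hk hl, ?_⟩
  filter_upwards [AEEqFun.coeFn_add k l, hkf, hlg] with t t1 t2 t3
  rw [t1, Pi.add_apply, t2, t3]

lemma Mem.smul {f : T → ℂ} (h : Mem D f) (c : ℂ) : Mem D (fun t => c * f t) := by
  obtain ⟨k, hk, hkf⟩ := h
  refine ⟨c • k, D.smul_mem c hk, ?_⟩
  filter_upwards [AEEqFun.coeFn_smul c k, hkf] with t t1 t2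
  rw [t1, Pi.smul_apply, t2, smul_eq_mul]

lemma Mem.sub {f g : T → ℂ} (h : Mem D f) (h' : Mem D g) : Mem D (fun t => f t - g t) := by
  refine (h.add (h'.smul (-1))).congr (Eventually.of_forall fun t => ?_)
  simp only
  ring

variable (hD : IsDouglas D)
include hD

lemma Mem.mul {f g : T → ℂ} (h : Mem D f) (h' : Mem D g) : Mem D (fun t => f t * g t) := by
  obtain ⟨k, hk, hkf⟩ := h
  obtain ⟨l, hl, hlg⟩ := h'
  refine ⟨k * l, hD.mul k hk l hl, ?_⟩
  filter_upwards [AEEqFun.coeFn_mul k l, hkf, hlg] with t t1 t2 t3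
  rw [t1, Pi.mul_apply, t2, t3]

lemma Mem.hinf {f : T → ℂ} (hf : f ∈ HInf) : Mem D f := by
  refine ⟨AEEqFun.mk f hf.1.1, ?_, AEEqFun.coeFn_mk f hf.1.1⟩
  refine hD.hinf (ext f) (bddHol_ext hf) _ ?_
  have h1 := hasBdry_ext hf (G := ext f) (fun z _ => rfl)
  filter_upwards [h1, AEEqFun.coeFn_mk f hf.1.1] with t t1 t2
  rw [t2]
  exact t1

lemma Mem.pow {f : T → ℂ} (h : Mem D f) (n : ℕ) : Mem D (fun t => f t ^ n) := by
  induction n with
  | zero =>
    refine (Mem.hinf hD (const_HInf 1)).congr (Eventually.of_forall fun t => ?_)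
    simp
  | succ n ih =>
    refine (Mem.mul hD ih h).congr (Eventually.of_forall fun t => ?_)
    simp only
    rw [pow_succ]

lemma Mem.sum {f : ℕ → T → ℂ} (n : ℕ) (h : ∀ k, Mem D (f k)) :
    Mem D (fun t => ∑ k ∈ Finset.range n, f k t) := by
  induction n with
  | zero =>
    refine (Mem.hinf hD (const_HInf 0)).congr (Eventually.of_forall fun t => ?_)
    simp
  | succ n ih =>
    refine (ih.add (h n)).congr (Eventually.of_forall fun t => ?_)
    simp only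
    rw [Finset.sum_range_succ]

lemma Mem.closed {f : T → ℂ} (hf : AEStronglyMeasurable f mu)
    (h : ∀ ε : ℝ, 0 < ε → ∃ g, Mem D g ∧ ∀ᵐ t ∂mu, ‖f t - g t‖ ≤ ε) : Mem D f := by
  refine ⟨AEEqFun.mk f hf, ?_, AEEqFun.coeFn_mk f hf⟩
  refine hD.closed _ fun ε hε => ?_
  obtain ⟨g, ⟨k, hk, hkg⟩, hg⟩ := h ε hε
  refine ⟨k, hk, ?_⟩
  filter_upwards [hg, hkg, AEEqFun.coeFn_mk f hf] with t t1 t2 t3
  rw [t2, t3]
  exact t1

end

lemma invIn_iff {D : Submodule ℂ (T →ₘ[mu] ℂ)} {u : ℂ → ℂ} {g : T → ℂ} (h : Rep u g) :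
    InvIn D u ↔ Mem D (fun t => conj (g t)) := by
  constructor
  · rintro ⟨k, hk, hkb⟩
    refine ⟨k, hk, ?_⟩
    filter_upwards [hkb, h.inv] with t t1 t2
    exact tendsto_nhds_unique t1 t2
  · rintro ⟨k, hk, hkb⟩
    refine ⟨k, hk, ?_⟩
    filter_upwards [hkb, h.inv] with t t1 t2
    rw [t1]
    exact t2

/-- The key lemma: if `b` is invertible in `D` and `|S|² + (1 - |b|²)³` is bounded below then `S`
is invertible in `D`. -/
theorem key {D : Submodule ℂ (T →ₘ[mu] ℂ)} (hD : IsDouglas D) {b S : ℂ → ℂ} {bT ST : T → ℂ}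
    (hb : Rep b bT) (hS : Rep S ST) (hbD : InvIn D b) {c : ℝ} (hc0 : 0 < c)
    (hc : ∀ z ∈ disc, c ≤ ‖S z‖ ^ 2 + (1 - ‖b z‖ ^ 2) ^ 3) : InvIn D S := by
  rw [invIn_iff hb] at hbD
  rw [invIn_iff hS]
  -- reduce to c ≤ 1
  set c' := min c 1 with hc'
  have hc'0 : 0 < c' := lt_min hc0 one_pos
  have hc'1 : c' ≤ 1 := min_le_right _ _
  have hc'' : ∀ z ∈ ball (0 : ℂ) 1, c' ≤ ‖ext ST z‖ ^ 2 + (1 - ‖ext bT z‖ ^ 2) ^ 3 := by
    intro z hz
    rw [hS.ext z hz, hb.ext z hz]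
    exact (min_le_left _ _).trans (hc z hz)
  obtain ⟨m, hm⟩ := exists_nat_gt (2 * (1428 * (c'⁻¹) ^ 3))
  have hφ : MemLp (fun t => conj (ST t) * bT t ^ (2 * m + 1)) ∞ mu := by
    refine bdd_mul (bdd_conj hS.mem.1) ?_
    have : ∀ n : ℕ, MemLp (fun t => bT t ^ n) ∞ mu := by
      intro n
      induction n with
      | zero => simpa using (const_HInf 1).1
      | succ n ih => simp_rw [pow_succ]; exact bdd_mul ih hb.mem.1
    exact this _
  obtain ⟨f, hf, hfe⟩ := nehari hφ (γ := 1428 * (c'⁻¹) ^ 3 / (m + 1)) (by positivity)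
    (fun P hP => pairing hb.mem hS.mem hb.one hS.one hc'0 hc'1 hc'' m P hP)
  have hγ : 1428 * (c'⁻¹) ^ 3 / ((m : ℝ) + 1) ≤ 1 / 2 := by
    rw [div_le_iff₀ (by positivity)]
    linarith
  set N := 2 * m + 1 with hN
  set v : T → ℂ := fun t => 1 - ST t * (conj (bT t) ^ N * f t) with hv
  have hvD : Mem D v :=
    (Mem.hinf hD (const_HInf 1)).sub (Mem.mul hD (Mem.hinf hD hS.mem)
      (Mem.mul hD (Mem.pow hD hbD N) (Mem.hinf hD hf)))
  have hvb : ∀ᵐ t ∂mu, ‖v t‖ ≤ 1 / 2 ∧ conj (ST t) * (1 - v t) = conj (bT t) ^ N * f t := by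
    filter_upwards [hfe, hb.one, hS.one] with t t1 t2 t3
    have e1 : ST t * conj (ST t) = 1 := by
      rw [Complex.mul_conj, Complex.normSq_eq_norm_sq, t3]; norm_num
    have e2 : conj (bT t) ^ N * bT t ^ N = 1 := by
      rw [← mul_pow, mul_comm, Complex.mul_conj, Complex.normSq_eq_norm_sq, t2]; norm_num
    constructor
    · have e3 : v t = ST t * conj (bT t) ^ N * (conj (ST t) * bT t ^ N - f t) := by
        simp only [hv]
        linear_combination (-1 : ℂ) * e1 - (ST t * conj (ST t)) * e2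
      rw [e3, norm_mul, norm_mul, norm_pow, RCLike.norm_conj, t2, t3, one_pow, one_mul, one_mul]
      exact t1.trans hγ
    · simp only [hv]
      linear_combination (conj (bT t) ^ N * f t) * e1
  refine Mem.closed hD (bdd_conj hS.mem.1).1 fun ε hε => ?_
  obtain ⟨n, hn⟩ := exists_pow_lt_of_lt_one hε (by norm_num : (1 / 2 : ℝ) < 1)
  refine ⟨fun t => (conj (bT t) ^ N * f t) * ∑ k ∈ Finset.range n, v t ^ k,
    Mem.mul hD (Mem.mul hD (Mem.pow hD hbD N) (Mem.hinf hD hf))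
      (Mem.sum hD n fun k => Mem.pow hD hvD k), ?_⟩
  filter_upwards [hvb, hS.one] with t t1 t2
  have e4 : conj (ST t) - (conj (bT t) ^ N * f t) * ∑ k ∈ Finset.range n, v t ^ k =
      conj (ST t) * v t ^ n := by
    rw [← t1.2]
    have := mul_neg_geom_sum (v t) n
    linear_combination (-conj (ST t)) * this
  rw [e4, norm_mul, RCLike.norm_conj, t2, one_mul, norm_pow]
  exact (pow_le_pow_left₀ (norm_nonneg _) t1.1 n).trans hn.le

end Pool.Agent.Helper503.Dg
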