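import Pool.Agent.Helper503.Dg.Fact

set_option autoImplicit false

open MeasureTheory Filter Topology Complex Metric Set
open scoped ComplexConjugate

namespace Pool.Agent.Helper503.Dg

section

variable {u : ℂ → ℂ} (hu : DifferentiableOn ℂ u disc) (hb : ∀ z ∈ disc, ‖u z‖ ≤ 1)
  {z0 : ℂ} (hz0 : z0 ∈ disc) (h0 : u z0 ≠ 0)

include hu hz0 h0 in
lemma ord_ne_top : ∀ w ∈ disc, analyticOrderAt u w ≠ ⊤ := by
  intro w hw h
  rw [analyticOrderAt_eq_top] at h
  have h1 : AnalyticOnNhd ℂ u disc := fun z hz => ana hu hz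
  exact h0 (h1.eqOn_zero_of_preconnected_of_eventuallyEq_zero
    (convex_ball _ _).isPreconnected hw h hz0)

include hu hz0 h0 in
lemma ev_ne {w : ℂ} (hw : w ∈ disc) : ∀ᶠ z in 𝓝[≠] w, u z ≠ 0 := by
  have h1 := (ana hu hw).eventually_eq_zero_or_eventually_ne_zero
  rcases h1 with h1 | h1
  · exact absurd (analyticOrderAt_eq_top.2 h1) (ord_ne_top hu hz0 h0 w hw)
  · exact h1

open Classical in
include hu hb hz0 h0 in
lemma fin_div (s : Finset (Idx u)) :
    ∃ g : ℂ → ℂ, DifferentiableOn ℂ g disc ∧ (∀ z ∈ disc, ‖g z‖ ≤ 1) ∧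
      (∀ z ∈ disc, u z = (∏ i ∈ s, bfac (zer u i) z) * g z) ∧
      ∀ w ∈ disc, analyticOrderAt g w + ((s.filter fun i => zer u i = w).card : ℕ∞) =
        analyticOrderAt u w := by
  refine divide_fam hu hb (zer u) (zer_mem u) s fun w hw => ?_
  rw [← Nat.cast_analyticOrderNatAt (ord_ne_top hu hz0 h0 w hw)]
  exact_mod_cast card_fib u s hw

include hu hb hz0 h0 in
lemma le_fin (s : Finset (Idx u)) {z : ℂ} (hz : z ∈ disc) :
    ‖u z‖ ≤ ‖∏ i ∈ s, bfac (zer u i) z‖ := by
  obtain ⟨g, -, hg2, hg3, -⟩ := fin_div hu hb hz0 h0 s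
  rw [hg3 z hz, norm_mul]
  exact mul_le_of_le_one_right (norm_nonneg _) (hg2 z hz)

include hu hb hz0 h0 in
lemma zer_summable : Summable fun i : Idx u => 1 - ‖zer u i‖ := by
  have hz1 : ‖z0‖ < 1 := mem_disc.1 hz0
  have hupos : 0 < ‖u z0‖ := norm_pos_iff.2 h0
  refine summable_of_sum_le (c := 4 * (-2 * Real.log ‖u z0‖) / (1 - ‖z0‖)) (fun i => ?_) fun s => ?_
  · have := mem_disc.1 (zer_mem u i)
    simp only [Pi.zero_apply]
    linarith
  · rw [le_div_iff₀ (by linarith), Finset.sum_mul]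
    have hne : ∀ i : Idx u, 0 < ‖bfac (zer u i) z0‖ := by
      intro i
      have := le_fin hu hb hz0 h0 {i} hz0
      rw [Finset.prod_singleton] at this
      linarith
    have h1 : ∀ i ∈ s, (1 - ‖zer u i‖) * (1 - ‖z0‖) ≤
        4 * (-2 * Real.log ‖bfac (zer u i) z0‖) := by
      intro i _
      have h2 := one_sub_le (zer_mem u i) hz0
      have h3 : Real.log (‖bfac (zer u i) z0‖ ^ 2) ≤ ‖bfac (zer u i) z0‖ ^ 2 - 1 :=
        Real.log_le_sub_one_of_pos (by have := hne i; positivity)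
      rw [Real.log_pow] at h3
      push_cast at h3
      linarith
    refine (Finset.sum_le_sum h1).trans ?_
    rw [← Finset.mul_sum, ← Finset.mul_sum, ← Real.log_prod (fun i _ => (hne i).ne'),
      ← norm_prod]
    have h4 := Real.log_le_log hupos (le_fin hu hb hz0 h0 s hz0)
    linarith

/-- the Blaschke product of the zeros -/
noncomputable def BP (u : ℂ → ℂ) (z : ℂ) : ℂ := ∏' i : Idx u, bfac (zer u i) z

include hu hb hz0 h0 in
lemma sub_summable {z : ℂ} (hz : z ∈ disc) :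
    Summable fun i : Idx u => ‖bfac (zer u i) z - 1‖ := by
  have hz1 : ‖z‖ < 1 := mem_disc.1 hz
  refine Summable.of_nonneg_of_le (fun _ => norm_nonneg _) (fun i => ?_)
    ((zer_summable hu hb hz0 h0).mul_right (2 / (1 - ‖z‖)))
  rw [mul_div, le_div_iff₀ (by linarith)]
  exact bfac_sub_one (zer_mem u i) hz

include hu hb hz0 h0 in
lemma BP_hasProd {z : ℂ} (hz : z ∈ disc) :
    HasProd (fun i : Idx u => bfac (zer u i) z) (BP u z) := by
  have h1 : Multipliable fun i : Idx u => (1 + (bfac (zer u i) z - 1)) :=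
    multipliable_one_add_of_summable (sub_summable hu hb hz0 h0 hz)
  have h2 : (fun i : Idx u => (1 + (bfac (zer u i) z - 1))) = fun i => bfac (zer u i) z := by
    funext i; ring
  rw [h2] at h1
  exact h1.hasProd

include hu hb hz0 h0 in
lemma le_BP {z : ℂ} (hz : z ∈ disc) : ‖u z‖ ≤ ‖BP u z‖ :=
  ge_of_tendsto (BP_hasProd hu hb hz0 h0 hz).norm
    (Filter.Eventually.of_forall fun s => by
      have h1 := le_fin hu hb hz0 h0 s hz
      rw [norm_prod] at h1
      exact h1)

include hu hb hz0 h0 in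
lemma BP_le {z : ℂ} (hz : z ∈ disc) : ‖BP u z‖ ≤ 1 := by
  refine le_of_tendsto (BP_hasProd hu hb hz0 h0 hz).norm
    (Filter.Eventually.of_forall fun s => ?_)
  exact Finset.prod_le_one (fun i _ => norm_nonneg _) fun i _ => bfac_le (zer_mem u i) hz

include hu hb hz0 h0 in
/-- local form of the quotient `u / BP u` -/
lemma local_quot {R : ℝ} (hR1 : R < 1) :
    ∃ S : ℂ → ℂ, DifferentiableOn ℂ S (ball 0 R) ∧ (∀ z ∈ ball (0 : ℂ) R, S z ≠ 0) ∧
      ∀ z ∈ ball (0 : ℂ) R, u z = BP u z * S z := by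
  classical
  have hsub : ball (0 : ℂ) R ⊆ disc := ball_subset_ball hR1.le
  have hsum := zer_summable hu hb hz0 h0
  have hfin : {i : Idx u | ‖zer u i‖ < R}.Finite := by
    have h1 := hsum.tendsto_cofinite_zero.eventually (gt_mem_nhds (show (0 : ℝ) < 1 - R by linarith))
    rw [Filter.eventually_cofinite] at h1
    refine h1.subset fun i hi => ?_
    simp only [Set.mem_ofPred_eq, not_lt] at hi ⊢
    linarith
  set s0 : Finset (Idx u) := hfin.toFinset with hs0
  have hmem : ∀ i : Idx u, i ∈ s0 ↔ ‖zer u i‖ < R := by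
    intro i; rw [hs0, Set.Finite.mem_toFinset]; rfl
  obtain ⟨g, hg1, hg2, hg3, hg4⟩ := fin_div hu hb hz0 h0 s0
  set Q : ℂ → ℂ := fun z => ∏' i : ((s0 : Set (Idx u))ᶜ : Set (Idx u)),
    (1 + (bfac (zer u i) z - 1)) with hQ
  have hQs : ∀ z ∈ disc, Summable fun i : ((s0 : Set (Idx u))ᶜ : Set (Idx u)) =>
      ‖bfac (zer u i) z - 1‖ := fun z hz => (sub_summable hu hb hz0 h0 hz).subtype _
  have hQne : ∀ z ∈ ball (0 : ℂ) R, Q z ≠ 0 := by
    intro z hz
    refine tprod_one_add_ne_zero_of_summable (fun i => ?_) (hQs z (hsub hz))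
    have e1 : 1 + (bfac (zer u i) z - 1) = bfac (zer u i) z := by ring
    rw [e1, ne_eq, bfac_eq_zero (zer_mem u i) (hsub hz)]
    intro h
    have h2 := i.2
    rw [Set.mem_compl_iff, Finset.mem_coe, hmem, not_lt, ← h] at h2
    rw [mem_ball_zero_iff] at hz
    linarith
  have hQd : DifferentiableOn ℂ Q (ball 0 R) := by
    have h1 : HasProdLocallyUniformlyOn
        (fun (i : ((s0 : Set (Idx u))ᶜ : Set (Idx u))) z => 1 + (bfac (zer u i) z - 1)) Q
        (ball 0 R) := by
      refine Summable.hasProdLocallyUniformlyOn_one_add isOpen_ball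
        (u := fun i : ((s0 : Set (Idx u))ᶜ : Set (Idx u)) => (1 - ‖zer u i‖) * (2 / (1 - R))) ?_ ?_ ?_
      · exact ((hsum.mul_right _).subtype _)
      · refine Filter.Eventually.of_forall fun i z hz => ?_
        have h2 := bfac_sub_one (zer_mem u i) (hsub hz)
        rw [mul_div, le_div_iff₀ (by linarith)]
        refine le_trans ?_ h2
        apply mul_le_mul_of_nonneg_left _ (norm_nonneg _)
        rw [mem_ball_zero_iff] at hz
        linarith
      · intro i
        exact ((bfac_diff (zer_mem u i)).continuousOn.mono hsub).sub continuousOn_const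
    refine TendstoLocallyUniformlyOn.differentiableOn (hasProdLocallyUniformlyOn_iff_tendstoLocallyUniformlyOn.1 h1) ?_ isOpen_ball
    refine Filter.Eventually.of_forall fun s => ?_
    refine DifferentiableOn.fun_finsetProd fun i _ => ?_
    exact (differentiableOn_const _).add
      (((bfac_diff (zer_mem u i)).mono hsub).sub (differentiableOn_const _))
  have hPQ : ∀ z ∈ disc, BP u z = (∏ i ∈ s0, bfac (zer u i) z) * Q z := by
    intro z hz
    have h1 : HasProd ((fun i : Idx u => bfac (zer u i) z) ∘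
        ((↑) : ((s0 : Set (Idx u))ᶜ : Set (Idx u)) → Idx u)) (Q z) := by
      have h2 : Multipliable fun i : ((s0 : Set (Idx u))ᶜ : Set (Idx u)) =>
          (1 + (bfac (zer u i) z - 1)) := multipliable_one_add_of_summable (hQs z hz)
      have h3 := h2.hasProd
      have h4 : (fun i : ((s0 : Set (Idx u))ᶜ : Set (Idx u)) => (1 + (bfac (zer u i) z - 1))) =
          ((fun i : Idx u => bfac (zer u i) z) ∘
            ((↑) : ((s0 : Set (Idx u))ᶜ : Set (Idx u)) → Idx u)) := by
        funext i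
        simp only [Function.comp_apply]
        ring
      rw [h4] at h3
      have h5 : Q z = ∏' i, ((fun i : Idx u => bfac (zer u i) z) ∘
            ((↑) : ((s0 : Set (Idx u))ᶜ : Set (Idx u)) → Idx u)) i := by
        rw [← h4]
      rw [h5]
      exact h3
    have h2 := s0.hasProd (fun i : Idx u => bfac (zer u i) z)
    exact (BP_hasProd hu hb hz0 h0 hz).unique (h2.mul_isCompl isCompl_compl h1)
  have hgne : ∀ z ∈ ball (0 : ℂ) R, g z ≠ 0 := by
    intro z hz
    have h1 := hg4 z (hsub hz)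
    have h2 : (s0.filter fun i => zer u i = z).card = analyticOrderNatAt u z :=
      card_fib_eq u s0 (hsub hz) fun i hi => by
        rw [hmem, hi]; exact mem_ball_zero_iff.1 hz
    have h5 := Nat.cast_analyticOrderNatAt (ord_ne_top hu hz0 h0 z (hsub hz))
    rw [h2, ← h5] at h1
    have h3 : analyticOrderAt g z = 0 := by
      have h4 : analyticOrderAt g z + (analyticOrderNatAt u z : ℕ∞) =
        0 + (analyticOrderNatAt u z : ℕ∞) := by rw [h1, zero_add]
      exact ENat.add_left_injective_of_ne_top (ENat.natCast_ne_top _) h4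
    rcases analyticOrderAt_eq_zero.1 h3 with h6 | h6
    · exact absurd (ana hg1 (hsub hz)) h6
    · exact h6
  refine ⟨fun z => g z / Q z, (hg1.mono hsub).div hQd hQne, fun z hz =>
    div_ne_zero (hgne z hz) (hQne z hz), fun z hz => ?_⟩
  have := hQne z hz
  rw [hPQ z (hsub hz), hg3 z (hsub hz)]
  field_simp

include hu hb hz0 h0 in
theorem factor : ∃ S : ℂ → ℂ, DifferentiableOn ℂ S disc ∧ (∀ z ∈ disc, S z ≠ 0) ∧
    (∀ z ∈ disc, ‖S z‖ ≤ 1) ∧ (∀ z ∈ disc, u z = BP u z * S z) := by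
  set S : ℂ → ℂ := fun z => limUnder (𝓝[≠] z) (fun w => u w / BP u w) with hS
  have hloc : ∀ z ∈ disc, ∃ (R : ℝ) (S' : ℂ → ℂ), R < 1 ∧ z ∈ ball (0 : ℂ) R ∧
      DifferentiableOn ℂ S' (ball 0 R) ∧ (∀ z ∈ ball (0 : ℂ) R, S' z ≠ 0) ∧
      (∀ z ∈ ball (0 : ℂ) R, u z = BP u z * S' z) ∧ ∀ z ∈ ball (0 : ℂ) R, S z = S' z := by
    intro z hz
    have hz1 := mem_disc.1 hz
    obtain ⟨R, hR0, hR1⟩ := exists_between hz1
    obtain ⟨S', h1, h2, h3⟩ := local_quot hu hb hz0 h0 hR1
    refine ⟨R, S', hR1, mem_ball_zero_iff.2 hR0, h1, h2, h3, fun w hw => ?_⟩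
    have hwd : w ∈ disc := ball_subset_ball hR1.le hw
    apply Filter.Tendsto.limUnder_eq
    have h4 : Tendsto S' (𝓝[≠] w) (𝓝 (S' w)) :=
      ((h1.continuousOn.continuousAt (isOpen_ball.mem_nhds hw)).tendsto).mono_left nhdsWithin_le_nhds
    refine h4.congr' ?_
    filter_upwards [ev_ne hu hz0 h0 hwd, mem_nhdsWithin_of_mem_nhds (isOpen_ball.mem_nhds hw)]
      with v hv1 hv2
    have h5 : BP u v ≠ 0 := by
      intro h
      rw [h3 v hv2, h, zero_mul] at hv1
      exact hv1 rfl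
    rw [h3 v hv2]
    field_simp
  have hd : DifferentiableOn ℂ S disc := by
    intro z hz
    obtain ⟨R, S', hR, hzR, h1, h2, h3, h4⟩ := hloc z hz
    have h5 : DifferentiableAt ℂ S' z := h1.differentiableAt (isOpen_ball.mem_nhds hzR)
    have h6 : S =ᶠ[𝓝 z] S' := by
      filter_upwards [isOpen_ball.mem_nhds hzR] with w hw using h4 w hw
    exact (h5.congr_of_eventuallyEq h6).differentiableWithinAt
  have hmul : ∀ z ∈ disc, u z = BP u z * S z := by
    intro z hz
    obtain ⟨R, S', hR, hzR, h1, h2, h3, h4⟩ := hloc z hz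
    rw [h4 z hzR]
    exact h3 z hzR
  have hle : ∀ z ∈ disc, ‖S z‖ ≤ 1 := by
    intro z hz
    have h4 : Tendsto (fun w => ‖S w‖) (𝓝[≠] z) (𝓝 ‖S z‖) :=
      (((hd.continuousOn.continuousAt (isOpen_ball.mem_nhds hz)).tendsto).mono_left
        nhdsWithin_le_nhds).norm
    refine le_of_tendsto h4 ?_
    filter_upwards [ev_ne hu hz0 h0 hz, mem_nhdsWithin_of_mem_nhds (isOpen_ball.mem_nhds hz)]
      with v hv1 hv2
    have h5 : BP u v ≠ 0 := by
      intro h
      rw [hmul v hv2, h, zero_mul] at hv1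
      exact hv1 rfl
    have h6 := le_BP hu hb hz0 h0 hv2
    rw [hmul v hv2, norm_mul] at h6
    have h7 : 0 < ‖BP u v‖ := norm_pos_iff.2 h5
    by_contra hc
    push Not at hc
    nlinarith
  refine ⟨S, hd, fun z hz => ?_, hle, hmul⟩
  obtain ⟨R, S', hR, hzR, h1, h2, h3, h4⟩ := hloc z hz
  rw [h4 z hzR]
  exact h2 z hzR

end

end Pool.Agent.Helper503.Dg
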