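import Pool.Agent.Helper503.Dg.Alg
import Pool.Agent.Helper503.Dg.Fact2

set_option autoImplicit false

open MeasureTheory Filter Topology Complex Metric Set
open scoped ComplexConjugate

namespace Pool.Agent.Helper503.Dg

section family

variable {ι : Type} {a : ι → ℂ}

/-- infinite Blaschke product -/
noncomputable def bprod (a : ι → ℂ) (z : ℂ) : ℂ := ∏' i, bfac (a i) z

variable (ha : ∀ i, a i ∈ disc) (hs : Summable fun i => 1 - ‖a i‖)

include ha hs in
lemma fam_summable {z : ℂ} (hz : z ∈ disc) : Summable fun i => ‖bfac (a i) z - 1‖ := by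
  have hz1 : ‖z‖ < 1 := mem_disc.1 hz
  refine Summable.of_nonneg_of_le (fun _ => norm_nonneg _) (fun i => ?_)
    (hs.mul_right (2 / (1 - ‖z‖)))
  rw [mul_div, le_div_iff₀ (by linarith)]
  exact bfac_sub_one (ha i) hz

include ha hs in
lemma fam_hasProd {z : ℂ} (hz : z ∈ disc) : HasProd (fun i => bfac (a i) z) (bprod a z) := by
  have h1 : Multipliable fun i => (1 + (bfac (a i) z - 1)) :=
    multipliable_one_add_of_summable (fam_summable ha hs hz)
  have h2 : (fun i => (1 + (bfac (a i) z - 1))) = fun i => bfac (a i) z := by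
    funext i; ring
  rw [h2] at h1
  exact h1.hasProd

include ha hs in
lemma fam_ne {z : ℂ} (hz : z ∈ disc) (h : ∀ i, z ≠ a i) : bprod a z ≠ 0 := by
  have h2 : bprod a z = ∏' i, (1 + (bfac (a i) z - 1)) := by
    unfold bprod
    congr 1
    funext i; ring
  rw [h2]
  refine tprod_one_add_ne_zero_of_summable (fun i => ?_) (fam_summable ha hs hz)
  have e1 : 1 + (bfac (a i) z - 1) = bfac (a i) z := by ring
  rw [e1, ne_eq, bfac_eq_zero (ha i) hz]
  exact h i

include ha hs in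
lemma fam_diff : DifferentiableOn ℂ (bprod a) disc := by
  have hball : ∀ R : ℝ, R < 1 → DifferentiableOn ℂ (bprod a) (ball 0 R) := by
    intro R hR1
    have hsub : ball (0 : ℂ) R ⊆ disc := ball_subset_ball hR1.le
    have h1 : HasProdLocallyUniformlyOn
        (fun (i : ι) z => 1 + (bfac (a i) z - 1)) (fun z => ∏' i, (1 + (bfac (a i) z - 1)))
        (ball 0 R) := by
      refine Summable.hasProdLocallyUniformlyOn_one_add isOpen_ball
        (u := fun i => (1 - ‖a i‖) * (2 / (1 - R))) (hs.mul_right _) ?_ ?_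
      · refine Filter.Eventually.of_forall fun i z hz => ?_
        have h2 := bfac_sub_one (ha i) (hsub hz)
        rw [mul_div, le_div_iff₀ (by linarith)]
        refine le_trans ?_ h2
        apply mul_le_mul_of_nonneg_left _ (norm_nonneg _)
        rw [mem_ball_zero_iff] at hz
        linarith
      · intro i
        exact ((bfac_diff (ha i)).continuousOn.mono hsub).sub continuousOn_const
    have h2 : DifferentiableOn ℂ (fun z => ∏' i, (1 + (bfac (a i) z - 1))) (ball 0 R) := by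
      refine TendstoLocallyUniformlyOn.differentiableOn
        (hasProdLocallyUniformlyOn_iff_tendstoLocallyUniformlyOn.1 h1) ?_ isOpen_ball
      refine Filter.Eventually.of_forall fun s => ?_
      refine DifferentiableOn.fun_finsetProd fun i _ => ?_
      exact (differentiableOn_const _).add
        (((bfac_diff (ha i)).mono hsub).sub (differentiableOn_const _))
    refine h2.congr fun z _ => ?_
    unfold bprod
    congr 1
    funext i; ring
  intro z hz
  obtain ⟨R, hR0, hR1⟩ := exists_between (mem_disc.1 hz)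
  exact ((hball R hR1).differentiableAt
    (isOpen_ball.mem_nhds (mem_ball_zero_iff.2 hR0))).differentiableWithinAt

include ha hs in
lemma fam_le_fin (s : Finset ι) {z : ℂ} (hz : z ∈ disc) :
    ‖bprod a z‖ ≤ ∏ i ∈ s, ‖bfac (a i) z‖ := by
  refine le_of_tendsto (fam_hasProd ha hs hz).norm ?_
  filter_upwards [eventually_ge_atTop s] with t ht
  classical
  rw [← Finset.prod_sdiff ht]
  refine mul_le_of_le_one_left (Finset.prod_nonneg fun _ _ => norm_nonneg _) ?_
  exact Finset.prod_le_one (fun _ _ => norm_nonneg _) fun i _ => bfac_le (ha i) hz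

include ha hs in
lemma fam_le {z : ℂ} (hz : z ∈ disc) : ‖bprod a z‖ ≤ 1 := by
  simpa using fam_le_fin ha hs ∅ hz

include ha hs in
lemma fam_split (s : Finset ι) {z : ℂ} (hz : z ∈ disc) :
    bprod a z = (∏ i ∈ s, bfac (a i) z) *
      bprod (fun i : ((s : Set ι)ᶜ : Set ι) => a i) z := by
  have h1 := fam_hasProd (a := fun i : ((s : Set ι)ᶜ : Set ι) => a i) (fun i => ha i)
    (hs.subtype _) hz
  have h2 := s.hasProd (fun i : ι => bfac (a i) z)
  exact (fam_hasProd ha hs hz).unique (h2.mul_isCompl isCompl_compl h1)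

end family

/-- data of a Blaschke product -/
lemma IsBlaschke.data {b : ℂ → ℂ} (h : IsBlaschke b) : ∃ (c : ℂ) (ι : Type) (a : ι → ℂ),
    ‖c‖ = 1 ∧ (∀ i, a i ∈ disc) ∧ (Summable fun i => 1 - ‖a i‖) ∧
      ∀ z ∈ disc, b z = c * bprod a z := by
  obtain ⟨c, ι, a, hc, ha, hs, hp⟩ := h
  refine ⟨c, ι, a, hc, ha, hs, fun z hz => ?_⟩
  obtain ⟨p, hp1, hp2⟩ := hp z hz
  rw [hp2, hp1.unique (fam_hasProd ha hs hz)]

lemma exists_avoid {ι : Type} {a : ι → ℂ} (ha : ∀ i, a i ∈ disc)
    (hs : Summable fun i => 1 - ‖a i‖) : ∃ z ∈ disc, ∀ i, z ≠ a i := by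
  have hc : (range a).Countable := by
    have h1 : (Function.support fun i => 1 - ‖a i‖).Countable := hs.countable_support
    have h2 : (Function.support fun i => 1 - ‖a i‖) = univ := by
      ext i
      have := mem_disc.1 (ha i)
      simp only [Function.mem_support, mem_univ, iff_true]
      linarith
    rw [h2, Set.countable_univ_iff] at h1
    exact countable_range a
  obtain ⟨z, hz1, hz2⟩ := (hc.dense_compl ℂ).exists_mem_open (isOpen_ball (x := (0 : ℂ)) (ε := 1))
    ⟨0, mem_ball_self one_pos⟩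
  exact ⟨z, hz2, fun i h => hz1 ⟨i, h.symm⟩⟩

lemma norm_ext_le {f : T → ℂ} (hf : f ∈ HInf) {z : ℂ} (hz : ‖z‖ < 1) :
    ‖ext f z‖ ≤ ∫ t, ‖f t‖ * pk z t ∂mu := by
  rw [← int_pk_HInf hf hz]
  refine (norm_integral_le_integral_norm _).trans (le_of_eq ?_)
  congr 1
  funext t
  rw [norm_mul, Complex.norm_real, Real.norm_of_nonneg (pk_nonneg hz t)]

lemma bfac_radial {a : ℂ} (ha : a ∈ disc) (t : T) :
    Tendsto (fun r : ℝ => ‖bfac a ((r : ℂ) * pt t)‖) (𝓝[<] 1) (𝓝 1) := by
  have h1 : Tendsto (fun r : ℝ => 1 - (1 - r ^ 2) / (1 - ‖a‖) ^ 2) (𝓝[<] 1)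
      (𝓝 (1 - (1 - (1 : ℝ) ^ 2) / (1 - ‖a‖) ^ 2)) := by
    apply Tendsto.mono_left _ nhdsWithin_le_nhds
    apply Continuous.tendsto
    fun_prop
  have h2 : (1 - (1 - (1 : ℝ) ^ 2) / (1 - ‖a‖) ^ 2) = 1 := by norm_num
  rw [h2] at h1
  refine tendsto_of_tendsto_of_tendsto_of_le_of_le' h1 tendsto_const_nhds ?_ ?_
  · filter_upwards [Ioo_mem_left] with r hr
    have hz : (r : ℂ) * pt t ∈ disc := re1_mem hr.1.le hr.2 t
    have h3 := one_sub_bfac_le ha hz
    have h4 : ‖(r : ℂ) * pt t‖ = r := by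
      rw [norm_mul, Complex.norm_real, Real.norm_of_nonneg hr.1.le, pt_eq, e_norm, mul_one]
    rw [h4] at h3
    have h5 := bfac_le ha hz
    have h6 := norm_nonneg (bfac a ((r : ℂ) * pt t))
    nlinarith
  · filter_upwards [Ioo_mem_left] with r hr
    exact bfac_le ha (re1_mem hr.1.le hr.2 t)

/-- Blaschke products are inner -/
theorem IsBlaschke.inner {b : ℂ → ℂ} (h : IsBlaschke b) : IsInner b := by
  obtain ⟨c, ι, a, hc, ha, hs, hb⟩ := h.data
  obtain ⟨z0, hz0, hz0a⟩ := exists_avoid ha hs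
  have hz01 := mem_disc.1 hz0
  have hbd : DifferentiableOn ℂ b disc := ((fam_diff ha hs).const_mul c).congr hb
  have hb1 : ∀ z ∈ disc, ‖b z‖ ≤ 1 := fun z hz => by
    rw [hb z hz, norm_mul, hc, one_mul]; exact fam_le ha hs hz
  have hne : b z0 ≠ 0 := by
    rw [hb z0 hz0]
    exact mul_ne_zero (by intro h0; rw [h0, norm_zero] at hc; norm_num at hc)
      (fam_ne ha hs hz0 hz0a)
  have hbB : BddHol b := ⟨hbd, 1, hb1⟩
  obtain ⟨bT, hbT, hbe, hbb⟩ := bh_rep hbB
  have hle : ∀ᵐ t ∂mu, ‖bT t‖ ≤ 1 := by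
    filter_upwards [hbb] with t ht
    refine le_of_tendsto ht.norm ?_
    filter_upwards [Ioo_mem_left] with r hr
    exact hb1 _ (re1_mem hr.1.le hr.2 t)
  -- the tails
  have hfin : ∀ s : Finset ι, ‖b z0‖ ≤ (∏ i ∈ s, ‖bfac (a i) z0‖) *
      ∫ t, ‖bT t‖ * pk z0 t ∂mu := by
    intro s
    set t' : ℂ → ℂ := bprod (fun i : ((s : Set ι)ᶜ : Set ι) => a i) with ht'
    have ha' : ∀ i : ((s : Set ι)ᶜ : Set ι), a i ∈ disc := fun i => ha i
    have hs' : Summable fun i : ((s : Set ι)ᶜ : Set ι) => 1 - ‖a i‖ := hs.subtype _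
    have hB : BddHol t' := ⟨fam_diff ha' hs', 1, fun z hz => fam_le ha' hs' hz⟩
    obtain ⟨tT, htT, hte, htb⟩ := bh_rep hB
    have heq : ∀ᵐ t ∂mu, ‖tT t‖ = ‖bT t‖ := by
      filter_upwards [hbb, htb] with t h1 h2
      have h3 : Tendsto (fun r : ℝ => (∏ i ∈ s, ‖bfac (a i) ((r : ℂ) * pt t)‖) *
          ‖t' ((r : ℂ) * pt t)‖) (𝓝[<] 1) (𝓝 ((∏ i ∈ s, (1 : ℝ)) * ‖tT t‖)) :=
        (tendsto_finsetProd _ fun i _ => bfac_radial (ha i) t).mul h2.norm
      rw [Finset.prod_const_one, one_mul] at h3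
      refine tendsto_nhds_unique (h3.congr' ?_) h1.norm
      filter_upwards [Ioo_mem_left] with r hr
      have hz : (r : ℂ) * pt t ∈ disc := re1_mem hr.1.le hr.2 t
      rw [hb _ hz, fam_split ha hs s hz, norm_mul, norm_mul, hc, one_mul, norm_prod]
    have h1 := norm_ext_le htT hz01
    rw [hte z0 hz0] at h1
    have h2 : ∫ t, ‖tT t‖ * pk z0 t ∂mu = ∫ t, ‖bT t‖ * pk z0 t ∂mu := by
      refine integral_congr_ae ?_
      filter_upwards [heq] with t ht
      rw [ht]
    rw [h2] at h1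
    rw [hb z0 hz0, fam_split ha hs s hz0, norm_mul, norm_mul, hc, one_mul, norm_prod]
    exact mul_le_mul_of_nonneg_left h1 (Finset.prod_nonneg fun _ _ => norm_nonneg _)
  have hlim : ‖b z0‖ ≤ ‖b z0‖ * ∫ t, ‖bT t‖ * pk z0 t ∂mu := by
    have h1 := (fam_hasProd ha hs hz0).norm
    have h2 : ‖bprod a z0‖ = ‖b z0‖ := by rw [hb z0 hz0, norm_mul, hc, one_mul]
    rw [h2] at h1
    exact ge_of_tendsto (Tendsto.mul_const _ h1) (Filter.Eventually.of_forall fun s => hfin s)
  have hpos : 0 < ‖b z0‖ := norm_pos_iff.2 hne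
  have h1 : 1 ≤ ∫ t, ‖bT t‖ * pk z0 t ∂mu := by
    by_contra hcon
    push Not at hcon
    nlinarith
  have hi1 : Integrable (fun t => ‖bT t‖ * pk z0 t) mu := by
    have h2 := (memLp_integrable (bdd_mul hbT.1 (bdd_cont (f := fun t => ((pk z0 t : ℝ) : ℂ))
      (Complex.continuous_ofReal.comp (pk_cont hz01))))).norm
    refine h2.congr (Filter.Eventually.of_forall fun t => ?_)
    simp only
    rw [norm_mul, Complex.norm_real, Real.norm_of_nonneg (pk_nonneg hz01 t)]
  have hi2 : Integrable (pk z0) mu := cont_intR (pk_cont hz01)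
  have h2 : ∫ t, (pk z0 t - ‖bT t‖ * pk z0 t) ∂mu = 0 := by
    apply le_antisymm
    · rw [integral_sub hi2 hi1, int_pk hz01]; linarith
    · apply integral_nonneg_of_ae
      filter_upwards [hle] with t ht
      have := pk_nonneg hz01 t
      simp only [Pi.zero_apply]
      nlinarith
  have h3 : ∀ᵐ t ∂mu, pk z0 t - ‖bT t‖ * pk z0 t = 0 := by
    have h4 := (integral_eq_zero_iff_of_nonneg_ae (f := fun t => pk z0 t - ‖bT t‖ * pk z0 t) (by
      filter_upwards [hle] with t ht
      have := pk_nonneg hz01 t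
      simp only [Pi.zero_apply]
      nlinarith) (hi2.sub hi1)).1 h2
    exact h4
  have h4 : ∀ᵐ t ∂mu, ‖bT t‖ = 1 := by
    filter_upwards [h3] with t ht
    have hp : 0 < pk z0 t := by
      have h5 : (0 : ℝ) < ‖ck z0 t‖ := norm_pos_iff.2 (inv_ne_zero (den_ne hz01 (-1) t))
      have h6 := norm_nonneg z0
      have h7 : 0 < 1 - ‖z0‖ ^ 2 := by nlinarith
      unfold pk
      positivity
    have h8 : (1 - ‖bT t‖) * pk z0 t = 0 := by linarith
    rcases mul_eq_zero.1 h8 with h9 | h9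
    · linarith
    · exact absurd h9 hp.ne'
  exact (Rep.of hbT h4 hbe).isInner

end Pool.Agent.Helper503.Dg
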