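import Mathlib

set_option autoImplicit false

namespace Pool.Agent.Helper503.Dg

open MeasureTheory Filter Topology
open scoped ComplexConjugate

/-- The unit circle, as `ℝ / ℤ`: the class of `x` stands for the point `e^{2 π i x}`. -/
abbrev T : Type := AddCircle (1 : ℝ)

/-- Normalised arc length on the circle. -/
noncomputable abbrev mu : Measure T := AddCircle.haarAddCircle

/-- The point `e^{2 π i t}` of the complex plane. -/
noncomputable def pt (t : T) : ℂ := fourier 1 t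

/-- The open unit disc. -/
abbrev disc : Set ℂ := Metric.ball (0 : ℂ) 1

/-- `g` is the radial boundary function of `G`: `G (r ζ) → g ζ` as `r → 1-` for almost every `ζ`. -/
def HasBdry (G : ℂ → ℂ) (g : T → ℂ) : Prop :=
  ∀ᵐ t ∂mu, Tendsto (fun r : ℝ => G ((r : ℂ) * pt t)) (𝓝[<] 1) (𝓝 (g t))

/-- Bounded holomorphic functions on the disc, i.e. `H^∞`. -/
def BddHol (G : ℂ → ℂ) : Prop :=
  DifferentiableOn ℂ G disc ∧ ∃ M : ℝ, ∀ z ∈ disc, ‖G z‖ ≤ M

/-- A Douglas algebra: a linear space of classes (modulo null sets) of measurable functions on the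
circle, closed under multiplication, which consists of essentially bounded functions, is closed for
the `L^∞` norm and contains the boundary functions of all bounded holomorphic functions. -/
structure IsDouglas (D : Submodule ℂ (T →ₘ[mu] ℂ)) : Prop where
  bdd : ∀ g ∈ D, ∃ M : ℝ, ∀ᵐ t ∂mu, ‖g t‖ ≤ M
  mul : ∀ f ∈ D, ∀ g ∈ D, f * g ∈ D
  closed : ∀ g : T →ₘ[mu] ℂ, (∀ ε : ℝ, 0 < ε → ∃ f ∈ D, ∀ᵐ t ∂mu, ‖g t - f t‖ ≤ ε) → g ∈ D
  hinf : ∀ G : ℂ → ℂ, BddHol G → ∀ g : T →ₘ[mu] ℂ, HasBdry G g → g ∈ D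

/-- Inner functions: bounded holomorphic functions with radial limits of modulus one almost
everywhere. -/
def IsInner (u : ℂ → ℂ) : Prop :=
  BddHol u ∧ ∀ᵐ t ∂mu, ∃ w : ℂ, ‖w‖ = 1 ∧
    Tendsto (fun r : ℝ => u ((r : ℂ) * pt t)) (𝓝[<] 1) (𝓝 w)

/-- `u` is invertible in `D`: the boundary function of `1 / u` belongs to `D`. -/
def InvIn (D : Submodule ℂ (T →ₘ[mu] ℂ)) (u : ℂ → ℂ) : Prop :=
  ∃ g ∈ D, HasBdry (fun z => (u z)⁻¹) g

/-- The Blaschke factor with zero `a`. -/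
noncomputable def bfac (a z : ℂ) : ℂ :=
  if a = 0 then z else ((‖a‖ : ℝ) : ℂ) / a * ((a - z) / (1 - conj a * z))

/-- Blaschke products: `u = c ∏ bfac (a i)` on the disc, with `|c| = 1`, `|a i| < 1` and
`∑ (1 - |a i|) < ∞`; the index set may be empty, finite or infinite. -/
def IsBlaschke (u : ℂ → ℂ) : Prop :=
  ∃ (c : ℂ) (ι : Type) (a : ι → ℂ), ‖c‖ = 1 ∧ (∀ i, a i ∈ disc) ∧
    (Summable fun i => 1 - ‖a i‖) ∧
    ∀ z ∈ disc, ∃ p : ℂ, HasProd (fun i => bfac (a i) z) p ∧ u z = c * p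

/-- The Poisson kernel of the disc. -/
noncomputable def pker (z : ℂ) (t : T) : ℝ := (1 - ‖z‖ ^ 2) / ‖pt t - z‖ ^ 2

/-- The part of the disc where `|b| > 1 - δ`. -/
def lev (b : ℂ → ℂ) (δ : ℝ) : Set ℂ := {z | z ∈ disc ∧ 1 - δ < ‖b z‖}

/-- Every positive harmonic function on the disc that is at most `M` on `E` is at most `M` on the
whole disc. -/
def Dominates (E : Set ℂ) : Prop :=
  ∀ h : ℂ → ℝ, InnerProductSpace.HarmonicOnNhd h disc → (∀ z ∈ disc, 0 ≤ h z) →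
    ∀ M : ℝ, (∀ z ∈ E, h z ≤ M) → ∀ z ∈ disc, h z ≤ M

/-- Finitely many Poisson kernels with poles in `E` and nonnegative weights of total mass at most
`M` add up to at least `1` everywhere on the circle. -/
def Covers (E : Set ℂ) (M : ℝ) : Prop :=
  ∃ (s : Finset ℂ) (w : ℂ → ℝ), (∀ z ∈ s, z ∈ E ∧ 0 ≤ w z) ∧ ∑ z ∈ s, w z ≤ M ∧
    ∀ t : T, 1 ≤ ∑ z ∈ s, w z * pker z t

/-- `D` is the Douglas algebra generated by the inverses of the members of `B`: it contains them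
and is contained in every Douglas algebra that contains them. -/
def GeneratedBy (D : Submodule ℂ (T →ₘ[mu] ℂ)) (B : Set (ℂ → ℂ)) : Prop :=
  (∀ b ∈ B, InvIn D b) ∧
    ∀ D' : Submodule ℂ (T →ₘ[mu] ℂ), IsDouglas D' → (∀ b ∈ B, InvIn D' b) → D ≤ D'

end Pool.Agent.Helper503.Dg
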