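import Pool.Agent.Helper503.Dg.Bfac

set_option autoImplicit false

open MeasureTheory Filter Topology Complex Metric Set
open scoped ComplexConjugate

namespace Pool.Agent.Helper503.Dg

lemma one_sub_bfac_le {a w : ℂ} (ha : a ∈ disc) (hw : w ∈ disc) :
    1 - ‖bfac a w‖ ^ 2 ≤ (1 - ‖w‖ ^ 2) / (1 - ‖a‖) ^ 2 := by
  have h := one_sub_bfac ha hw
  have hd := bden_ge (a := a) hw
  have hb := bfac_le ha hw
  have hb0 := norm_nonneg (bfac a w)
  rw [mem_disc] at ha hw
  have h1 : 0 < 1 - ‖a‖ := by linarith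
  rw [le_div_iff₀ (by positivity)]
  have h2 : (1 - ‖a‖) ^ 2 ≤ ‖1 - conj a * w‖ ^ 2 := by gcongr
  have h3 : 0 ≤ 1 - ‖bfac a w‖ ^ 2 := by nlinarith
  have h4 : (1 - ‖a‖ ^ 2) * (1 - ‖w‖ ^ 2) ≤ 1 * (1 - ‖w‖ ^ 2) := by
    apply mul_le_mul_of_nonneg_right _ (by nlinarith [norm_nonneg w])
    nlinarith [norm_nonneg a]
  nlinarith [mul_le_mul_of_nonneg_left h2 h3]

/-- Schwarz–Pick division by a Blaschke factor -/
lemma divide {g : ℂ → ℂ} (hg : DifferentiableOn ℂ g disc) (hb : ∀ z ∈ disc, ‖g z‖ ≤ 1) {a : ℂ}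
    (ha : a ∈ disc) (h0 : g a = 0) :
    ∃ g₁ : ℂ → ℂ, DifferentiableOn ℂ g₁ disc ∧ (∀ z ∈ disc, ‖g₁ z‖ ≤ 1) ∧
      ∀ z ∈ disc, g z = bfac a z * g₁ z := by
  have hd : DifferentiableOn ℂ (fun z => dslope g a z / kfac a z) disc := by
    refine DifferentiableOn.div ?_ (kfac_diff ha) fun z hz => kfac_ne ha hz
    exact (Complex.differentiableOn_dslope (isOpen_ball.mem_nhds ha)).2 hg
  have hmul : ∀ z ∈ disc, g z = bfac a z * (dslope g a z / kfac a z) := by
    intro z hz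
    have h1 := sub_smul_dslope g a z
    rw [h0, sub_zero, smul_eq_mul] at h1
    have h2 := kfac_ne ha hz
    rw [bfac_eq, ← h1]
    field_simp
  refine ⟨fun z => dslope g a z / kfac a z, hd, fun z hz => ?_, hmul⟩
  set g₁ : ℂ → ℂ := fun z => dslope g a z / kfac a z with hg₁
  have hz1 : ‖z‖ < 1 := mem_disc.1 hz
  have ha1 : ‖a‖ < 1 := mem_disc.1 ha
  have hc : Tendsto (fun r : ℝ => ‖g₁ z‖ ^ 2 * (1 - (1 - r ^ 2) / (1 - ‖a‖) ^ 2)) (𝓝[<] 1)
      (𝓝 (‖g₁ z‖ ^ 2 * (1 - (1 - (1 : ℝ) ^ 2) / (1 - ‖a‖) ^ 2))) := by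
    apply Tendsto.mono_left _ nhdsWithin_le_nhds
    apply Continuous.tendsto
    fun_prop
  have hpos : ∀ᶠ r : ℝ in 𝓝[<] 1, 0 < 1 - (1 - r ^ 2) / (1 - ‖a‖) ^ 2 := by
    have h2 : Tendsto (fun r : ℝ => (1 - (1 - r ^ 2) / (1 - ‖a‖) ^ 2)) (𝓝[<] 1)
      (𝓝 ((1 - (1 - (1 : ℝ) ^ 2) / (1 - ‖a‖) ^ 2))) := by
      apply Tendsto.mono_left _ nhdsWithin_le_nhds
      apply Continuous.tendsto
      fun_prop
    refine h2.eventually (lt_mem_nhds ?_)
    norm_num
  have hev : ∀ᶠ r : ℝ in 𝓝[<] 1, ‖g₁ z‖ ^ 2 * (1 - (1 - r ^ 2) / (1 - ‖a‖) ^ 2) ≤ 1 := by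
    filter_upwards [hpos, Ioo_mem_nhdsLT hz1] with r hr hrz
    have hr1 : r < 1 := hrz.2
    have hr0 : 0 < r := lt_of_le_of_lt (norm_nonneg z) hrz.1
    rw [← le_div_iff₀ hr, ← norm_pow]
    refine Complex.norm_le_of_forall_mem_frontier_norm_le (f := fun w => g₁ w ^ 2)
      (U := ball 0 r) isBounded_ball ?_ ?_ (subset_closure (by simpa using hrz.1))
    · apply DifferentiableOn.diffContOnCl
      rw [closure_ball _ hr0.ne']
      refine (hd.pow 2).mono fun w hw => ?_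
      rw [mem_closedBall_zero_iff] at hw
      exact mem_disc.2 (hw.trans_lt hr1)
    · intro w hw
      rw [frontier_ball _ hr0.ne', mem_sphere_zero_iff_norm] at hw
      have hwd : w ∈ disc := mem_disc.2 (hw.trans_lt hr1)
      rw [le_div_iff₀ hr, norm_pow]
      have h1 := one_sub_bfac_le ha hwd
      rw [hw] at h1
      have h2 : ‖g₁ w‖ ^ 2 * (1 - (1 - r ^ 2) / (1 - ‖a‖) ^ 2) ≤ ‖g₁ w‖ ^ 2 * ‖bfac a w‖ ^ 2 := by
        apply mul_le_mul_of_nonneg_left _ (by positivity)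
        linarith
      have h3 : ‖g₁ w‖ ^ 2 * ‖bfac a w‖ ^ 2 = ‖g w‖ ^ 2 := by
        rw [hmul w hwd, norm_mul]; ring
      have h4 := hb w hwd
      have h5 := norm_nonneg (g w)
      nlinarith
  have h1 := le_of_tendsto hc hev
  have h2 : ‖g₁ z‖ ^ 2 ≤ 1 := by
    simpa using h1
  nlinarith [norm_nonneg (g₁ z)]

lemma ana {g : ℂ → ℂ} (hg : DifferentiableOn ℂ g disc) {z : ℂ} (hz : z ∈ disc) :
    AnalyticAt ℂ g z := hg.analyticAt (isOpen_ball.mem_nhds hz)

lemma bfac_order {a w : ℂ} (ha : a ∈ disc) (hw : w ∈ disc) :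
    analyticOrderAt (bfac a) w = if a = w then 1 else 0 := by
  split_ifs with h
  · subst h
    have h1 : analyticOrderAt (bfac a) a = analyticOrderAt ((fun z => z - a) * kfac a) a :=
      analyticOrderAt_congr (Filter.Eventually.of_forall fun z => bfac_eq z)
    rw [h1, analyticOrderAt_mul (by fun_prop) (ana (kfac_diff ha) ha)]
    have h2 : analyticOrderAt (kfac a) a = 0 :=
      analyticOrderAt_eq_zero.2 (Or.inr (kfac_ne ha ha))
    rw [h2, add_zero]
    exact analyticOrderAt_id_sub_const_self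
  · refine analyticOrderAt_eq_zero.2 (Or.inr ?_)
    rw [ne_eq, bfac_eq_zero ha hw]
    exact fun h' => h h'.symm

open Classical in
lemma divide_fam {u : ℂ → ℂ} (hu : DifferentiableOn ℂ u disc) (hb : ∀ z ∈ disc, ‖u z‖ ≤ 1)
    {ι : Type} (a : ι → ℂ)
    (ha : ∀ i, a i ∈ disc) (s : Finset ι)
    (hs : ∀ w ∈ disc, ((s.filter fun i => a i = w).card : ℕ∞) ≤ analyticOrderAt u w) :
    ∃ g : ℂ → ℂ, DifferentiableOn ℂ g disc ∧ (∀ z ∈ disc, ‖g z‖ ≤ 1) ∧
      (∀ z ∈ disc, u z = (∏ i ∈ s, bfac (a i) z) * g z) ∧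
      ∀ w ∈ disc, analyticOrderAt g w + ((s.filter fun i => a i = w).card : ℕ∞) =
        analyticOrderAt u w := by
  induction s using Finset.induction_on with
  | empty => exact ⟨u, hu, hb, by simp, by simp⟩
  | insert j s hj ih =>
    have hcard : ∀ w, (((insert j s).filter fun i => a i = w).card : ℕ∞) =
        ((s.filter fun i => a i = w).card : ℕ∞) + (if a j = w then 1 else 0) := by
      intro w
      rw [Finset.filter_insert]
      split_ifs with h
      · rw [Finset.card_insert_of_notMem (by simp [hj])]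
        push_cast; rfl
      · simp
    obtain ⟨g, hg1, hg2, hg3, hg4⟩ := ih fun w hw => by
      refine le_trans ?_ (hs w hw)
      rw [hcard]
      exact le_self_add
    have h0 : g (a j) = 0 := by
      have h1 := hs (a j) (ha j)
      rw [hcard, if_pos rfl, ← hg4 (a j) (ha j)] at h1
      have h2 : analyticOrderAt g (a j) ≠ 0 := by
        intro h3
        rw [h3, zero_add] at h1
        have h4 : ((s.filter fun i => a i = a j).card : ℕ∞) <
            ((s.filter fun i => a i = a j).card : ℕ∞) + 1 := by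
          exact_mod_cast Nat.lt_succ_self _
        exact absurd h1 (not_le.2 h4)
      exact (analyticOrderAt_ne_zero.1 h2).2
    obtain ⟨g₁, hd1, hd2, hd3⟩ := divide hg1 hg2 (ha j) h0
    refine ⟨g₁, hd1, hd2, fun z hz => ?_, fun w hw => ?_⟩
    · rw [Finset.prod_insert hj, hg3 z hz, hd3 z hz]; ring
    · have h1 : analyticOrderAt g w = analyticOrderAt (bfac (a j) * g₁) w := by
        refine analyticOrderAt_congr ?_
        filter_upwards [isOpen_ball.mem_nhds hw] with z hz using hd3 z hz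
      rw [analyticOrderAt_mul (ana (bfac_diff (ha j)) hw) (ana hd1 hw),
        bfac_order (ha j) hw] at h1
      rw [hcard, ← hg4 w hw, h1]
      ring

/-- zeros of `u` in the disc, listed with multiplicity -/
abbrev Idx (u : ℂ → ℂ) : Type := Σ z : {z : ℂ // z ∈ disc}, Fin (analyticOrderNatAt u (z : ℂ))

/-- the zero with a given index -/
def zer (u : ℂ → ℂ) (i : Idx u) : ℂ := i.1

lemma zer_mem (u : ℂ → ℂ) (i : Idx u) : zer u i ∈ disc := i.1.2

open Classical in
lemma card_fib (u : ℂ → ℂ) (s : Finset (Idx u)) {w : ℂ} (hw : w ∈ disc) :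
    (s.filter fun i => zer u i = w).card ≤ analyticOrderNatAt u w := by
  have h1 : (s.filter fun i => zer u i = w) ⊆
      (Finset.univ : Finset (Fin (analyticOrderNatAt u w))).image
        (fun k => (⟨⟨w, hw⟩, k⟩ : Idx u)) := by
    rintro ⟨⟨w', hw'⟩, k⟩ hi
    rw [Finset.mem_filter] at hi
    have h2 : w' = w := hi.2
    subst h2
    exact Finset.mem_image.2 ⟨k, Finset.mem_univ _, rfl⟩
  refine (Finset.card_le_card h1).trans (Finset.card_image_le.trans ?_)
  simp

open Classical in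
lemma card_fib_eq (u : ℂ → ℂ) (s : Finset (Idx u)) {w : ℂ} (hw : w ∈ disc)
    (hs : ∀ i : Idx u, zer u i = w → i ∈ s) :
    (s.filter fun i => zer u i = w).card = analyticOrderNatAt u w := by
  refine le_antisymm (card_fib u s hw) ?_
  have h1 : (Finset.univ : Finset (Fin (analyticOrderNatAt u w))).image
        (fun k => (⟨⟨w, hw⟩, k⟩ : Idx u)) ⊆ (s.filter fun i => zer u i = w) := by
    intro i hi
    obtain ⟨k, -, rfl⟩ := Finset.mem_image.1 hi
    rw [Finset.mem_filter]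
    exact ⟨hs _ rfl, rfl⟩
  have h2 := Finset.card_le_card h1
  rw [Finset.card_image_of_injective _ (by
    intro k l hkl
    simpa using hkl)] at h2
  simpa using h2

end Pool.Agent.Helper503.Dg
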