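import Pool.Agent.Helper503.Dg.Pair

set_option autoImplicit false

open MeasureTheory Filter Topology Complex Metric Set AddCircle
open scoped Interval ComplexConjugate ENNReal

namespace Pool.Agent.Helper503.Dg

lemma memLp_poly (P : Polynomial ℂ) (p : ℝ≥0∞) : MemLp (fun t : T => P.eval (e 1 t)) p mu :=
  (bdd_cont (P.continuous.comp (e_cont 1))).mono_exponent le_top

/-- classes of polynomials vanishing at the origin in `L¹` -/
noncomputable def WW : Submodule ℂ (Lp ℂ 1 mu) where
  carrier := {x | ∃ P : Polynomial ℂ, P.eval 0 = 0 ∧ x = (memLp_poly P 1).toLp _}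
  add_mem' := by
    rintro x y ⟨P, hP, rfl⟩ ⟨Q, hQ, rfl⟩
    refine ⟨P + Q, by simp [hP, hQ], ?_⟩
    rw [← MemLp.toLp_add]
    congr 1
    funext t
    simp
  zero_mem' := by
    refine ⟨0, by simp, ?_⟩
    symm
    rw [← Lp.toLp_coeFn (0 : Lp ℂ 1 mu) (Lp.memLp _)]
    apply MemLp.toLp_congr
    filter_upwards [Lp.coeFn_zero ℂ 1 mu] with t ht
    rw [ht]; simp
  smul_mem' := by
    rintro c x ⟨P, hP, rfl⟩
    refine ⟨Polynomial.C c * P, by simp [hP], ?_⟩
    rw [← MemLp.toLp_const_smul]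
    congr 1
    funext t
    simp

/-- the inclusion of `L²` in `L¹` -/
noncomputable def io (F : Lp ℂ 2 mu) : Lp ℂ 1 mu :=
  ((Lp.memLp F).mono_exponent (by norm_num : (1 : ℝ≥0∞) ≤ 2)).toLp F

lemma io_coe (F : Lp ℂ 2 mu) : io F =ᵐ[mu] F := MemLp.coeFn_toLp _

lemma io_norm (F : Lp ℂ 2 mu) : ‖io F‖ ≤ ‖F‖ := by
  rw [Lp.norm_def, Lp.norm_def]
  apply ENNReal.toReal_mono (Lp.eLpNorm_ne_top F)
  rw [eLpNorm_congr_ae (io_coe F)]
  exact eLpNorm_le_eLpNorm_of_exponent_le (by norm_num) (Lp.aestronglyMeasurable F)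

lemma io_norm' (F : Lp ℂ 2 mu) : ‖io F‖ = ∫ t, ‖F t‖ ∂mu := by
  rw [L1.norm_eq_integral_norm]
  apply integral_congr_ae
  filter_upwards [io_coe F] with t ht
  rw [ht]

theorem nehari {φ : T → ℂ} (hφ : MemLp φ ∞ mu) {γ : ℝ} (hγ : 0 ≤ γ)
    (h : ∀ P : Polynomial ℂ, P.eval 0 = 0 →
      ‖∫ t, φ t * P.eval (e 1 t) ∂mu‖ ≤ γ * ∫ t, ‖P.eval (e 1 t)‖ ∂mu) :
    ∃ f ∈ HInf, ∀ᵐ t ∂mu, ‖φ t - f t‖ ≤ γ := by
  obtain ⟨C, hC0, hC⟩ := exists_bound hφ
  have hint : ∀ x : Lp ℂ 1 mu, Integrable (fun t => φ t * x t) mu := fun x =>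
    (L1.integrable_coeFn x).bdd_mul hφ.1 hC
  let l0 : WW →ₗ[ℂ] ℂ :=
    { toFun := fun x => ∫ t, φ t * (x : Lp ℂ 1 mu) t ∂mu
      map_add' := by
        intro x y
        rw [← integral_add (hint x) (hint y)]
        apply integral_congr_ae
        filter_upwards [Lp.coeFn_add (x : Lp ℂ 1 mu) (y : Lp ℂ 1 mu)] with t ht
        rw [Submodule.coe_add, ht, Pi.add_apply]; ring
      map_smul' := by
        intro c x
        rw [RingHom.id_apply, smul_eq_mul, ← integral_const_mul]
        apply integral_congr_ae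
        filter_upwards [Lp.coeFn_smul c (x : Lp ℂ 1 mu)] with t ht
        rw [Submodule.coe_smul, ht, Pi.smul_apply, smul_eq_mul]; ring }
  have hl0 : ∀ x : WW, ‖l0 x‖ ≤ γ * ‖x‖ := by
    rintro ⟨x, P, hP, rfl⟩
    have e1 : l0 ⟨(memLp_poly P 1).toLp _, P, hP, rfl⟩ = ∫ t, φ t * P.eval (e 1 t) ∂mu := by
      show ∫ t, φ t * ((memLp_poly P 1).toLp _ : Lp ℂ 1 mu) t ∂mu = _
      apply integral_congr_ae
      filter_upwards [(memLp_poly P 1).coeFn_toLp] with t ht
      rw [ht]
    have e2 : ‖(⟨(memLp_poly P 1).toLp _, P, hP, rfl⟩ : WW)‖ = ∫ t, ‖P.eval (e 1 t)‖ ∂mu := by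
      show ‖((memLp_poly P 1).toLp _ : Lp ℂ 1 mu)‖ = _
      rw [L1.norm_eq_integral_norm]
      apply integral_congr_ae
      filter_upwards [(memLp_poly P 1).coeFn_toLp] with t ht
      rw [ht]
    rw [e1, e2]
    exact h P hP
  obtain ⟨g, hg1, hg2⟩ := exists_extension_norm_eq WW (l0.mkContinuous γ hl0)
  have hgn : ‖g‖ ≤ γ := by
    rw [hg2]; exact LinearMap.mkContinuous_norm_le _ hγ _
  -- restriction to L²
  let L2 : Lp ℂ 2 mu →ₗ[ℂ] ℂ :=
    { toFun := fun F => g (io F)
      map_add' := by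
        intro F G
        rw [← map_add]
        congr 1
        apply Lp.ext
        filter_upwards [io_coe (F + G), io_coe F, io_coe G, Lp.coeFn_add F G,
          Lp.coeFn_add (io F) (io G)] with t t1 t2 t3 t4 t5
        rw [t1, t4, t5, Pi.add_apply, Pi.add_apply, t2, t3]
      map_smul' := by
        intro c F
        rw [RingHom.id_apply, ← map_smul]
        congr 1
        apply Lp.ext
        filter_upwards [io_coe (c • F), io_coe F, Lp.coeFn_smul c F,
          Lp.coeFn_smul c (io F)] with t t1 t2 t4 t5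
        rw [t1, t4, t5, Pi.smul_apply, Pi.smul_apply, t2] }
  have hL2 : ∀ F : Lp ℂ 2 mu, ‖L2 F‖ ≤ γ * ∫ t, ‖F t‖ ∂mu := by
    intro F
    rw [← io_norm']
    exact (g.le_opNorm _).trans (mul_le_mul_of_nonneg_right hgn (norm_nonneg _))
  let L2c : Lp ℂ 2 mu →L[ℂ] ℂ := L2.mkContinuous γ (fun F => by
    refine (hL2 F).trans ?_
    rw [← io_norm']
    exact mul_le_mul_of_nonneg_left (io_norm F) hγ)
  set G : Lp ℂ 2 mu := (InnerProductSpace.toDual ℂ (Lp ℂ 2 mu)).symm L2c with hG
  have hGL : ∀ F : Lp ℂ 2 mu, L2 F = ∫ t, conj (G t) * F t ∂mu := by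
    intro F
    have h1 : L2c F = inner ℂ G F := by
      rw [hG, InnerProductSpace.toDual_symm_apply]
    rw [MeasureTheory.L2.inner_def] at h1
    rw [show L2 F = L2c F from rfl, h1]
    apply integral_congr_ae
    refine Eventually.of_forall fun t => ?_
    simp only [RCLike.inner_apply]
    ring
  -- the measurable representative
  have hGm : StronglyMeasurable (G : T → ℂ) := Lp.stronglyMeasurable G
  set q : T → ℂ := fun t => conj (G t) with hq
  have hqm : Measurable q := Complex.continuous_conj.measurable.comp hGm.measurable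
  have hqint : Integrable q mu := by
    have h1 : Integrable (G : T → ℂ) mu := (Lp.memLp G).integrable (by norm_num)
    refine ⟨hqm.aestronglyMeasurable, ?_⟩
    have h2 := h1.2
    unfold HasFiniteIntegral at h2 ⊢
    convert h2 using 2
    funext t
    simp [hq]
  have hqb : ∀ᵐ t ∂mu, ‖q t‖ ≤ γ := by
    set F : T → ℂ := fun t => if γ < ‖q t‖ then conj (q t) / (‖q t‖ : ℂ) else 0 with hF
    have hA : MeasurableSet {t | γ < ‖q t‖} := measurableSet_lt measurable_const hqm.norm
    have hFm : Measurable F := by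
      refine Measurable.ite hA ?_ measurable_const
      exact (Complex.continuous_conj.measurable.comp hqm).div
        (Complex.measurable_ofReal.comp hqm.norm)
    have hFb : ∀ t, ‖F t‖ ≤ 1 := by
      intro t
      simp only [hF]
      split_ifs with hc
      · have : ‖q t‖ ≠ 0 := by intro h0; rw [h0] at hc; linarith
        rw [norm_div, RCLike.norm_conj, Complex.norm_real, norm_norm, div_self this]
      · simp
    have hF2 : MemLp F 2 mu := (memLp_top_of_bound hFm.aestronglyMeasurable 1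
      (Eventually.of_forall hFb)).mono_exponent le_top
    have h1 := hL2 (hF2.toLp F)
    rw [hGL] at h1
    have e1 : ∫ t, conj (G t) * (hF2.toLp F : Lp ℂ 2 mu) t ∂mu =
        ((∫ t, (if γ < ‖q t‖ then ‖q t‖ else 0) ∂mu : ℝ) : ℂ) := by
      have e0 : ((∫ t, (if γ < ‖q t‖ then ‖q t‖ else 0) ∂mu : ℝ) : ℂ) =
          ∫ t, (((if γ < ‖q t‖ then ‖q t‖ else 0 : ℝ)) : ℂ) ∂mu := integral_ofReal.symm
      rw [e0]
      apply integral_congr_ae
      filter_upwards [hF2.coeFn_toLp] with t ht
      rw [ht]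
      simp only [hF]
      split_ifs with hc
      · have : (‖q t‖ : ℂ) ≠ 0 := by
          have : ‖q t‖ ≠ 0 := by intro h0; rw [h0] at hc; linarith
          exact_mod_cast this
        show q t * (conj (q t) / (‖q t‖ : ℂ)) = _
        rw [mul_div_assoc', Complex.mul_conj, Complex.normSq_eq_norm_sq]
        push_cast
        field_simp
      · simp
    have e2 : ∫ t, ‖(hF2.toLp F : Lp ℂ 2 mu) t‖ ∂mu ≤
        ∫ t, (if γ < ‖q t‖ then (1 : ℝ) else 0) ∂mu := by
      apply integral_mono_ae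
      · exact ((Lp.memLp _).integrable (by norm_num)).norm
      · exact (integrable_const (1 : ℝ)).indicator hA |>.congr (Eventually.of_forall fun t => by
          by_cases hc : γ < ‖q t‖
          · simp [indicator, hc]
          · simp [indicator, hc])
      · filter_upwards [hF2.coeFn_toLp] with t ht
        rw [ht]
        by_cases hc : γ < ‖q t‖
        · rw [if_pos hc]; exact hFb t
        · rw [if_neg hc]; simp [hF, hc]
    rw [e1, Complex.norm_real] at h1
    have i1 : Integrable (fun t => if γ < ‖q t‖ then ‖q t‖ else 0) mu :=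
      (hqint.norm.indicator hA).congr (Eventually.of_forall fun t => by
        by_cases hc : γ < ‖q t‖
        · simp [indicator, hc]
        · simp [indicator, hc])
    have i2 : Integrable (fun t => if γ < ‖q t‖ then (1 : ℝ) else 0) mu :=
      (integrable_const (1 : ℝ)).indicator hA |>.congr (Eventually.of_forall fun t => by
          by_cases hc : γ < ‖q t‖
          · simp [indicator, hc]
          · simp [indicator, hc])
    have h2 : ∫ t, (if γ < ‖q t‖ then ‖q t‖ else 0) ∂mu ≤
        γ * ∫ t, (if γ < ‖q t‖ then (1 : ℝ) else 0) ∂mu :=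
      (le_abs_self _).trans (h1.trans (mul_le_mul_of_nonneg_left e2 hγ))
    have h3 : ∫ t, ((if γ < ‖q t‖ then ‖q t‖ else 0) -
        γ * (if γ < ‖q t‖ then (1 : ℝ) else 0)) ∂mu ≤ 0 := by
      rw [integral_sub i1 (i2.const_mul γ), integral_const_mul]
      linarith
    have h4 : ∀ t, 0 ≤ (if γ < ‖q t‖ then ‖q t‖ else 0) -
        γ * (if γ < ‖q t‖ then (1 : ℝ) else 0) := by
      intro t
      split_ifs with hc
      · linarith
      · simp
    have h5 := (integral_eq_zero_iff_of_nonneg h4 (i1.sub (i2.const_mul γ))).1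
      (le_antisymm h3 (integral_nonneg h4))
    filter_upwards [h5] with t ht
    by_contra hc
    push Not at hc
    simp only [if_pos hc, Pi.zero_apply] at ht
    linarith
  have hqm' : MemLp q ∞ mu := memLp_top_of_bound hqm.aestronglyMeasurable γ hqb
  refine ⟨fun t => φ t - q t, ?_, ?_⟩
  · refine (mem_HInf_iff (f := fun t => φ t - q t) (hφ.sub hqm')).2 ?_
    intro n hn
    have hP : (Polynomial.X ^ n : Polynomial ℂ).eval 0 = 0 := by
      simp [hn.ne']
    have hen : ∀ t : T, (Polynomial.X ^ n : Polynomial ℂ).eval (e 1 t) = e n t := by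
      intro t
      rw [Polynomial.eval_pow, Polynomial.eval_X, e_nat]
    have h2 := memLp_poly (Polynomial.X ^ n) 2
    have k1 := hGL (h2.toLp _)
    have k2 : io (h2.toLp _) = (memLp_poly (Polynomial.X ^ n) 1).toLp _ := by
      apply Lp.ext
      filter_upwards [io_coe (h2.toLp _), h2.coeFn_toLp,
        (memLp_poly (Polynomial.X ^ n) 1).coeFn_toLp] with t t1 t2 t3
      rw [t1, t2, t3]
    have k3 : L2 (h2.toLp _) = ∫ t, φ t * e n t ∂mu := by
      show g (io (h2.toLp _)) = _
      rw [k2]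
      have := hg1 ⟨(memLp_poly (Polynomial.X ^ n) 1).toLp _, Polynomial.X ^ n, hP, rfl⟩
      rw [this]
      show ∫ t, φ t * ((memLp_poly (Polynomial.X ^ n) 1).toLp _ : Lp ℂ 1 mu) t ∂mu = _
      apply integral_congr_ae
      filter_upwards [(memLp_poly (Polynomial.X ^ n) 1).coeFn_toLp] with t ht
      rw [ht, hen]
    have k4 : ∫ t, conj (G t) * (h2.toLp _ : Lp ℂ 2 mu) t ∂mu = ∫ t, q t * e n t ∂mu := by
      apply integral_congr_ae
      filter_upwards [h2.coeFn_toLp] with t ht
      rw [ht, hen]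
    have k5 : ∫ t, (φ t - q t) * e n t ∂mu = ∫ t, φ t * e n t ∂mu - ∫ t, q t * e n t ∂mu := by
      rw [← integral_sub]
      · congr 1; funext t; ring
      · exact memLp_integrable (bdd_mul hφ (bdd_e n))
      · exact memLp_integrable (bdd_mul hqm' (bdd_e n))
    rw [k5, ← k3, ← k4, k1, sub_self]
  · filter_upwards [hqb] with t ht
    simpa using ht

end Pool.Agent.Helper503.Dg
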