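import Pool.Agent.Helper503.Dg.Circ
import Pool.Agent.Helper503.Dg.Poly

set_option autoImplicit false

open MeasureTheory Filter Topology Complex Metric Set AddCircle
open scoped Interval ComplexConjugate

namespace Pool.Agent.Helper503.Dg

lemma re1_mem {r : ℝ} (h0 : 0 ≤ r) (h1 : r < 1) (t : T) : (r : ℂ) * e 1 t ∈ ball (0 : ℂ) 1 := by
  rw [mem_ball_zero_iff, norm_mul, e_norm, mul_one, Complex.norm_real, Real.norm_of_nonneg h0]
  exact h1

lemma Ioo_mem_left : Ioo (0 : ℝ) 1 ∈ 𝓝[<] (1 : ℝ) := Ioo_mem_nhdsLT one_pos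

lemma ofReal_tendsto : Tendsto (fun r : ℝ => (r : ℂ)) (𝓝[<] 1) (𝓝 1) := by
  have : Tendsto (fun r : ℝ => (r : ℂ)) (𝓝 1) (𝓝 ((1 : ℝ) : ℂ)) :=
    Complex.continuous_ofReal.tendsto 1
  rw [Complex.ofReal_one] at this
  exact this.mono_left nhdsWithin_le_nhds

lemma cont_left {E : Type*} [TopologicalSpace E] {Q : ℂ → E} (hQ : Continuous Q) (t : T) :
    Tendsto (fun r : ℝ => Q ((r : ℂ) * e 1 t)) (𝓝[<] 1) (𝓝 (Q (e 1 t))) := by
  have h1 := ofReal_tendsto.mul_const (e 1 t)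
  rw [one_mul] at h1
  exact (hQ.tendsto _).comp h1

theorem pairing {bT ST : T → ℂ} (hb : bT ∈ HInf) (hS : ST ∈ HInf) (hb1 : ∀ᵐ t ∂mu, ‖bT t‖ = 1)
    (hS1 : ∀ᵐ t ∂mu, ‖ST t‖ = 1) {c : ℝ} (hc0 : 0 < c) (hc1 : c ≤ 1)
    (hc : ∀ z ∈ ball (0 : ℂ) 1, c ≤ ‖ext ST z‖ ^ 2 + (1 - ‖ext bT z‖ ^ 2) ^ 3) (m : ℕ)
    (P : Polynomial ℂ) (hP0 : P.eval 0 = 0) :
    ‖∫ t, (conj (ST t) * bT t ^ (2 * m + 1)) * P.eval (e 1 t) ∂mu‖ ≤
      (1428 * (c⁻¹) ^ 3 / (m + 1)) * ∫ t, ‖P.eval (e 1 t)‖ ∂mu := by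
  by_cases hP : P = 0
  · subst hP; simp
  obtain ⟨Q, h, k, hQ, hh, hk, hhk, hhQ, hkQ, hQP⟩ := poly_hk P hP
  set b := ext bT with hbdef
  set S := ext ST with hSdef
  have db : DifferentiableOn ℂ b (ball 0 1) := ext_diff hb.1
  have dS : DifferentiableOn ℂ S (ball 0 1) := ext_diff hS.1
  have bb : ∀ z ∈ ball (0 : ℂ) 1, ‖b z‖ ≤ 1 := fun z hz =>
    ext_bound hb (hb1.mono fun t ht => ht.le) (by simpa using hz)
  have bS : ∀ z ∈ ball (0 : ℂ) 1, ‖S z‖ ≤ 1 := fun z hz =>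
    ext_bound hS (hS1.mono fun t ht => ht.le) (by simpa using hz)
  have hz0 : (0 : ℂ) ∈ ball (0 : ℂ) 1 := by simp
  set U : ℂ → ℂ := fun z => GG b S z * FF b h k m z with hU
  have hD : ∀ z ∈ ball (0 : ℂ) 1, DD b S z ≠ 0 := fun z hz => DD_ne hc0 (hc z hz)
  have cU : ContinuousOn U (ball 0 1) := by
    refine ContinuousOn.mul ?_ (FF_diff db hh hk m).continuousOn
    exact fun z hz => (HasFDerivAt.continuousAt (hasW_GG db dS hD hz)).continuousWithinAt
  have hU0 : Av U 0 = 0 := by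
    unfold Av
    have : ∀ θ : ℝ, U (circleMap 0 0 θ) = 0 := by
      intro θ
      have e1 : circleMap 0 0 θ = 0 := by simp [circleMap]
      rw [e1]
      have e2 : h 0 * k 0 = 0 := by rw [← hhk 0 hz0]; exact hP0
      simp only [hU, FF, e2, mul_zero]
    simp only [this, intervalIntegral.integral_zero]
  set K : ℝ := 714 * (c⁻¹) ^ 3 / (m + 1) with hK
  have hK0 : 0 ≤ K := by positivity
  have hbound : ∀ r ∈ Ioo (0 : ℝ) 1, ‖∫ t, U (r * e 1 t) ∂mu‖ ≤
      2 * K * ∫ t, ‖Q (r * e 1 t)‖ ∂mu := by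
    intro r hr
    rw [int_T U r, int_T (fun z => ‖Q z‖) r]
    have h1 := main_est db dS hh hk bb bS hc0 hc1 hc m hr.1 hr.2
    rw [show (fun z => GG b S z * FF b h k m z) = U from rfl, hU0, sub_zero] at h1
    have h2 : Av (fun z => ‖h z‖ ^ 2) r ≤ Av (fun z => ‖Q z‖) r :=
      Av_mono (hh.continuousOn.norm.pow 2) hQ.norm.continuousOn hhQ hr.1.le hr.2
    have h3 : Av (fun z => ‖k z‖ ^ 2) r ≤ Av (fun z => ‖Q z‖) r :=
      Av_mono (hk.continuousOn.norm.pow 2) hQ.norm.continuousOn hkQ hr.1.le hr.2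
    have hpi : (0 : ℝ) ≤ (2 * Real.pi)⁻¹ := by positivity
    rw [norm_smul, Real.norm_of_nonneg hpi, smul_eq_mul]
    have h4 : ‖Av U r‖ ≤ K * (2 * Av (fun z => ‖Q z‖) r) :=
      h1.trans (mul_le_mul_of_nonneg_left (by linarith) hK0)
    calc (2 * Real.pi)⁻¹ * ‖Av U r‖ ≤ (2 * Real.pi)⁻¹ * (K * (2 * Av (fun z => ‖Q z‖) r)) :=
          mul_le_mul_of_nonneg_left h4 hpi
      _ = _ := by ring
  -- bounds
  obtain ⟨MP, hMP⟩ := (isCompact_closedBall (0 : ℂ) 1).exists_bound_of_continuousOn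
    (P.continuous.continuousOn (s := closedBall (0 : ℂ) 1))
  obtain ⟨MQ, hMQ⟩ := (isCompact_closedBall (0 : ℂ) 1).exists_bound_of_continuousOn
    (hQ.continuousOn (s := closedBall (0 : ℂ) 1))
  have lim1 : Tendsto (fun r : ℝ => ∫ t, U (r * e 1 t) ∂mu) (𝓝[<] 1)
      (𝓝 (∫ t, (conj (ST t) * bT t ^ (2 * m + 1)) * P.eval (e 1 t) ∂mu)) := by
    apply tendsto_integral_filter_of_dominated_convergence (fun _ => c⁻¹ * MP)
    · filter_upwards [Ioo_mem_left] with r hr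
      exact (cU.comp_continuous (continuous_const.mul (e_cont 1))
        (re1_mem hr.1.le hr.2)).aestronglyMeasurable
    · filter_upwards [Ioo_mem_left] with r hr
      refine Eventually.of_forall fun t => ?_
      have hz := re1_mem hr.1.le hr.2 t
      simp only [hU, FF, GG]
      rw [← hhk _ hz, norm_mul, norm_mul, norm_mul, RCLike.norm_conj, norm_pow]
      have i1 := norm_inv_le hc0 (hc _ hz)
      have i2 := bS _ hz
      have i3 := bb _ hz
      have i4 := hMP _ (ball_subset_closedBall hz)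
      have i5 : ‖b (↑r * e 1 t)‖ ^ (2 * m + 1) ≤ 1 := pow_le_one₀ (norm_nonneg _) i3
      have i6 : 0 ≤ c⁻¹ := by positivity
      have i7 : 0 ≤ MP := (norm_nonneg _).trans i4
      calc ‖S (↑r * e 1 t)‖ * ‖(DD b S (↑r * e 1 t))⁻¹‖ *
            (‖b (↑r * e 1 t)‖ ^ (2 * m + 1) * ‖Polynomial.eval (↑r * e 1 t) P‖)
          ≤ (1 * c⁻¹) * (1 * MP) := by gcongr
        _ = c⁻¹ * MP := by ring
    · exact integrable_const _
    · filter_upwards [hb1, hS1, radial hb, radial hS] with t t1 t2 t3 t4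
      have j1 : Tendsto (fun r : ℝ => DD b S (r * e 1 t)) (𝓝[<] 1) (𝓝 1) := by
        have j2 : ST t * conj (ST t) + (1 - bT t * conj (bT t)) ^ 3 = 1 := by
          rw [Complex.mul_conj, Complex.mul_conj, Complex.normSq_eq_norm_sq,
            Complex.normSq_eq_norm_sq, t1, t2]
          norm_num
        rw [← j2]
        have cc : Continuous fun p : ℂ × ℂ => p.2 * conj p.2 + (1 - p.1 * conj p.1) ^ 3 := by
          fun_prop
        exact (cc.tendsto (bT t, ST t)).comp (t3.prodMk_nhds t4)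
      have j3 : Tendsto (fun r : ℝ => GG b S (r * e 1 t)) (𝓝[<] 1) (𝓝 (conj (ST t) * 1⁻¹)) :=
        ((Complex.continuous_conj.tendsto _).comp t4).mul (j1.inv₀ one_ne_zero)
      have j4 : Tendsto (fun r : ℝ => b (r * e 1 t) ^ (2 * m + 1) * P.eval (r * e 1 t)) (𝓝[<] 1)
          (𝓝 (bT t ^ (2 * m + 1) * P.eval (e 1 t))) :=
        (t3.pow _).mul (cont_left P.continuous t)
      have j5 := j3.mul j4
      rw [inv_one, mul_one] at j5
      have e9 : conj (ST t) * bT t ^ (2 * m + 1) * P.eval (e 1 t) =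
        conj (ST t) * (bT t ^ (2 * m + 1) * P.eval (e 1 t)) := by ring
      rw [e9]
      refine j5.congr' ?_
      filter_upwards [Ioo_mem_left] with r hr
      simp only [hU, FF]
      rw [hhk _ (re1_mem hr.1.le hr.2 t)]
  have lim2 : Tendsto (fun r : ℝ => ∫ t, ‖Q (r * e 1 t)‖ ∂mu) (𝓝[<] 1)
      (𝓝 (∫ t, ‖P.eval (e 1 t)‖ ∂mu)) := by
    apply tendsto_integral_filter_of_dominated_convergence (fun _ => MQ)
    · filter_upwards [Ioo_mem_left] with r hr
      exact (hQ.norm.comp (continuous_const.mul (e_cont 1))).aestronglyMeasurable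
    · filter_upwards [Ioo_mem_left] with r hr
      refine Eventually.of_forall fun t => ?_
      rw [norm_norm]
      exact hMQ _ (ball_subset_closedBall (re1_mem hr.1.le hr.2 t))
    · exact integrable_const _
    · refine Eventually.of_forall fun t => ?_
      rw [← hQP _ (e_norm 1 t)]
      exact cont_left hQ.norm t
  have hfin := le_of_tendsto_of_tendsto lim1.norm (lim2.const_mul (2 * K)) (by
    filter_upwards [Ioo_mem_left] with r hr
    exact hbound r hr)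
  refine hfin.trans (le_of_eq ?_)
  rw [hK]; ring

end Pool.Agent.Helper503.Dg
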